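import Mathlib
import Pool.Agent.K4H38.CX.Tail2
import Pool.Agent.K4H38.CX.TaskN
import Pool.Agent.K4H38.CW.Sharp

/-!
# General fat points in `ℙⁿ`: all but a constant number of them impose independent conditions

Let `n ≥ 2` and `c = c(n) = ⌈n / 2⌉ n ^ (n - 1) + n - 2`; so `c = 2` in the plane and `c = 19` in
space. Consider `r` general points of `ℙⁿ` with arbitrary multiplicities `m₀ ≥ m₁ ≥ …`, and a
degree `d`. Write `N(m) = C(n + m - 1, n)` for the number of the conditions of a point of
multiplicity `m`, and `D = C(n + d, n)`.

* If there is a form of degree `d` with these multiplicities at the general points, then all the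
  points but the `c` points of the highest multiplicities impose independent conditions on the
  forms of degree `d`. Moreover `∑ m i ^ n ≤ d ^ n`, where the sum is over all the points but these
  `c` ones, and the number of the dependent conditions is at most `∑ (N(m i) - m i)`, over the `c`
  points of the highest multiplicities.
* For equal multiplicities `m` and a given degree `d`, there is `r₀` such that the Hilbert function
  is `r N(m)` for `r ≤ r₀` and `D` for `r > r₀ + c`: the value is the expected one for all `r`, with
  at most `c` exceptions. In the plane there are at most two exceptions, and this is optimal; in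
  general there can be `2 ^ n - 2` of them.
* For given `m` and `r ≥ C(n) m ^ (n / (n - 1))`, the value is the expected one for all the
  degrees `d` but at most one.

The proof has two parts. After `n - 1` points at which the forms of the system have independent
leading forms, `c - (n - 1)` more points, which collide at a general point in the directions of a
complete intersection, kill the system: the leading forms of the system at a general point
contain no power of a linear form of a certain type, so their number is small (a complete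
intersection bounds it), and the forms of high degree are not divisible by general products of
powers of linear forms. The first part is a bound for the forms which are constant along the lines
through a general point.
-/

set_option autoImplicit false

namespace Pool.Agent.Results.MP_b56c98_ag.ConstantWindow

open MvPolynomial
open scoped LinearAlgebra.Projectivization
open Pool.Agent.H350R3.MG

/-- The ideal of the points `P₀, …, P_(r-1)` with the multiplicities `m 0, …, m (r - 1)`. -/
noncomputable def fatIdeal {n r : ℕ} (m : ℕ → ℕ) (P : Fin r → ℙ ℂ (Fin (n + 1) → ℂ)) :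
    Ideal (MvPolynomial (Fin (n + 1)) ℂ) :=
  ⨅ i : Fin r, primeIdeal (P i) ^ m i

/-- The Hilbert function `dim R_d - dim J_d` of `R / J`. -/
noncomputable def hilbert {n : ℕ} (J : Ideal (MvPolynomial (Fin (n + 1)) ℂ)) (d : ℕ) : ℤ :=
  (Module.finrank ℂ (homogeneousSubmodule (Fin (n + 1)) ℂ d) : ℤ) -
    Module.finrank ℂ (homogeneousSubmodule (Fin (n + 1)) ℂ d ⊓ Submodule.restrictScalars ℂ J :
      Submodule ℂ (MvPolynomial (Fin (n + 1)) ℂ))

/-- `h` is the value at `d` of the Hilbert function of the ideal of `r` general points of
multiplicities `m 0, …, m (r - 1)`: it is the value for all the `r`-tuples of points in a nonempty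
Zariski open set. -/
def IsGeneralHilbertValue (n r : ℕ) (m : ℕ → ℕ) (d : ℕ) (h : ℤ) : Prop :=
  Generally (fun P : Fin r → ℙ ℂ (Fin (n + 1) → ℂ) => hilbert (fatIdeal m P) d = h)

/-- The number of the coefficients of a form of degree `d` in `n + 1` variables. -/
def forms (n d : ℕ) : ℤ := ((n + d).choose n : ℕ)

/-- The number of the conditions of a point of multiplicity `m` in `ℙⁿ`. -/
def conditions (n m : ℕ) : ℤ := ((n + m - 1).choose n : ℕ)

/-- The number of the monomials of degree `m - 1` in `n` variables. -/
def leading (n m : ℕ) : ℤ := ((n + m - 2).choose (n - 1) : ℕ)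

/-- The constant `⌈n / 2⌉ n ^ (n - 1) + n - 2`. -/
def const (n : ℕ) : ℕ := (n + 1) / 2 * n ^ (n - 1) + n - 2

lemma general (n r : ℕ) (m : ℕ → ℕ) (d : ℕ) : IsGeneralHilbertValue n r m d
    (forms n d - K4H38FP.hv ℂ (Fin (n + 1)) d (((List.range r).map m : List ℕ) : Multiset ℕ)) := by
  obtain ⟨U, h1, h2, h3⟩ := K4H38FP.generally_dim (n := n) (r := r) (fun i => m i) d
  refine ⟨U, h1, h2, fun P hP => ?_⟩
  have h4 := h3 P hP
  have h5 : (Finset.univ : Finset (Fin r)).val.map (fun i : Fin r => m i) =
      (((List.range r).map m : List ℕ) : Multiset ℕ) := by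
    rw [Fin.univ_val_map]
    congr 1
    refine List.ext_getElem (by simp) fun i h1 h2 => ?_
    simp
  rw [h5] at h4
  unfold hilbert fatIdeal forms
  beta_reduce
  rw [h4, H350MG.finrank_Rj, Fintype.card_fin, show n + 1 + d - 1 = n + d by omega,
    ← Nat.choose_symm_add]

lemma general_of {n r : ℕ} {m : ℕ → ℕ} {d : ℕ} {h : ℤ}
    (hh : forms n d - K4H38FP.hv ℂ (Fin (n + 1)) d
      (((List.range r).map m : List ℕ) : Multiset ℕ) = h) :
    IsGeneralHilbertValue n r m d h := hh ▸ general n r m d

lemma sum_list (r : ℕ) (f : ℕ → ℕ) : ((List.range r).map f).sum = ∑ i ∈ Finset.range r, f i :=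
  rfl

lemma pairwise_list {m : ℕ → ℕ} (hm : Antitone m) (r : ℕ) :
    ((List.range r).map m).Pairwise (· ≥ ·) := by
  rw [List.pairwise_map]
  exact (List.pairwise_lt_range (n := r)).imp fun h => hm h.le

lemma split_list (m : ℕ → ℕ) (r c : ℕ) : (List.range r).map m =
    (List.range (min c r)).map m ++ (List.range (r - c)).map fun i => m (i + c) := by
  rcases le_total r c with h | h
  · rw [min_eq_right h, Nat.sub_eq_zero_of_le h]
    simp
  · obtain ⟨j, rfl⟩ := Nat.exists_eq_add_of_le h
    rw [min_eq_left h, Nat.add_sub_cancel_left, List.range_add, List.map_append, List.map_map]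
    congr 1
    refine List.map_congr_left fun i _ => ?_
    rw [Function.comp_apply, Nat.add_comm]

lemma le_conditions {n : ℕ} (hn : 1 ≤ n) (m : ℕ) : (m : ℤ) ≤ conditions n m := by
  have h1 := (K4H38FP.sys hn 0).le_N m
  have e1 : conditions n m = K4H38FP.nc n m := rfl
  rw [e1]
  exact_mod_cast h1

lemma conditions_sub {n : ℕ} (hn : 1 ≤ n) {m M : ℕ} (h : m ≤ M) :
    conditions n m - m ≤ conditions n M - M := by
  have h1 := (K4H38FP.sys hn 0).N_sub h
  have e1 : conditions n m = K4H38FP.nc n m := rfl
  have e2 : conditions n M = K4H38FP.nc n M := rfl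
  rw [e1, e2]
  omega

/-- arbitrary multiplicities -/
lemma mixed {n : ℕ} (hn : 2 ≤ n) (r : ℕ) {m : ℕ → ℕ} (hm : Antitone m) (d : ℕ) :
    ∃ H : ℤ, IsGeneralHilbertValue n r m d H ∧
      (H ≤ forms n d ∧ H ≤ ∑ i ∈ Finset.range r, conditions n (m i)) ∧
      (H ≠ forms n d →
        IsGeneralHilbertValue n (r - const n) (fun i => m (i + const n)) d
          (∑ i ∈ Finset.range (r - const n), conditions n (m (i + const n))) ∧
        ∑ i ∈ Finset.range (r - const n), m (i + const n) ^ n ≤ d ^ n ∧
        ∑ i ∈ Finset.range r, conditions n (m i) - H ≤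
          ∑ i ∈ Finset.range (min (const n) r), (conditions n (m i) - m i)) ∧
      (H ≠ ∑ i ∈ Finset.range r, conditions n (m i) →
        forms n d - H ≤ const n * conditions n (m 0) ∧
        forms n d - H ≤ ((m 0 - 1 : ℕ) : ℤ) ^ n + ((n : ℤ) - 2) * conditions n (m 0)) := by
  refine ⟨_, general n r m d, ⟨?_, ?_⟩, fun hH => ?_, fun hH => ?_⟩
  · have : (0 : ℤ) ≤ K4H38FP.hv ℂ (Fin (n + 1)) d (((List.range r).map m : List ℕ) :
      Multiset ℕ) := Nat.cast_nonneg _
    linarith
  · have h1 := K4H38CX.vdim hn d ((List.range r).map m)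
    rw [List.map_map, sum_list] at h1
    have h2 : (((n + d).choose n : ℕ) : ℤ) ≤ (K4H38FP.hv ℂ (Fin (n + 1)) d
        (((List.range r).map m : List ℕ) : Multiset ℕ) : ℕ) +
          ∑ i ∈ Finset.range r, conditions n (m i) := by
      have e1 : (∑ i ∈ Finset.range r, conditions n (m i)) =
          ((∑ i ∈ Finset.range r, (K4H38FP.nc n ∘ m) i : ℕ) : ℤ) := by
        push_cast
        rfl
      rw [e1]
      exact_mod_cast h1
    unfold forms
    linarith
  · have h0 : K4H38FP.hv ℂ (Fin (n + 1)) d (((List.range r).map m : List ℕ) : Multiset ℕ) ≠ 0 := by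
      intro h
      apply hH
      rw [h]
      simp
    have hs := split_list m r (const n)
    have hp := pairwise_list hm r
    rw [hs] at h0 hp
    have hL : K4H38CX.cc n ≤ ((List.range (min (const n) r)).map m).length ∨
        ((List.range (r - const n)).map fun i => m (i + const n)) = [] := by
      rw [List.length_map, List.length_range]
      rcases le_total (const n) r with h | h
      · left
        rw [min_eq_left h]
        exact le_rfl
      · right
        rw [Nat.sub_eq_zero_of_le h]
        rfl
    obtain ⟨h1, h2⟩ := K4H38CX.tail_super hn d hp hL h0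
    have hvol : ∑ i ∈ Finset.range (r - const n), m (i + const n) ^ n ≤ d ^ n := by
      rcases hL with hL | hL
      · have h3 := K4H38CX.volume_of hn (K4H38CX.cc n)
          (fun d l L => K4H38CX.tail_indep hn d l L) d hp hL h0
        rw [List.map_map, sum_list] at h3
        exact h3
      · have h3 : r - const n = 0 := by
          have := congrArg List.length hL
          simpa using this
        rw [h3, Finset.sum_range_zero]
        exact Nat.zero_le _
    rw [List.map_map, sum_list] at h1 h2
    rw [sum_list] at h2
    refine ⟨?_, hvol, ?_⟩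
    · refine general_of ?_
      unfold forms
      rw [← h1]
      push_cast
      rw [add_sub_cancel_left]
      rfl
    · rw [← hs] at h2
      have e1 : (∑ i ∈ Finset.range r, conditions n (m i)) =
          (((List.range r).map m).map (K4H38FP.nc n)).sum := by
        rw [List.map_map, sum_list]
        push_cast
        rfl
      have e2 : (∑ i ∈ Finset.range (min (const n) r), (conditions n (m i) - m i) : ℤ) =
          ((((List.range (min (const n) r)).map m).map (K4H38FP.nc n)).sum : ℕ) -
            ((∑ i ∈ Finset.range (min (const n) r), m i : ℕ) : ℤ) := by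
        rw [List.map_map, sum_list, Finset.sum_sub_distrib]
        push_cast
        rfl
      rw [e1, e2, hs, List.map_append, List.sum_append, ← hs, List.map_map (g := K4H38FP.nc n)
        (f := fun i => m (i + const n)), sum_list (r - const n)]
      unfold forms
      have h3 : ((K4H38FP.hv ℂ (Fin (n + 1)) d
          (((List.range r).map m : List ℕ) : Multiset ℕ) : ℕ) : ℤ) +
            ((∑ i ∈ Finset.range (min (const n) r), m i : ℕ) : ℤ) +
            ((∑ i ∈ Finset.range (r - const n),
              (K4H38FP.nc n ∘ fun i => m (i + const n)) i : ℕ) : ℤ) ≤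
              (((n + d).choose n : ℕ) : ℤ) := by
        exact_mod_cast h2
      push_cast at h3 ⊢
      linarith
  · rcases K4H38CX.mixed hn d (m 0) ((List.range r).map m) (pairwise_list hm r) (by
      intro a ha
      obtain ⟨i, _, rfl⟩ := List.mem_map.1 ha
      exact hm (Nat.zero_le i)) with h | h
    · exfalso
      apply hH
      rw [List.map_map, sum_list] at h
      unfold forms
      rw [← h]
      push_cast
      rw [add_sub_cancel_left]
      rfl
    · rw [sub_sub_cancel]
      have e1 : conditions n (m 0) = K4H38FP.nc n (m 0) := rfl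
      have e2 : const n = K4H38CX.cc n := rfl
      rw [e1, e2]
      constructor
      · exact_mod_cast h.1
      · have h3 : ((n - 2 : ℕ) : ℤ) = (n : ℤ) - 2 := by
          rw [Nat.cast_sub hn]
          rfl
        rw [← h3]
        exact_mod_cast h.2

lemma rep_list (r m : ℕ) : (((List.range r).map fun _ => m : List ℕ) : Multiset ℕ) =
    Multiset.replicate r m := by
  rw [List.map_const', List.length_range, Multiset.coe_replicate]

lemma general_rep (n r m d : ℕ) : IsGeneralHilbertValue n r (fun _ => m) d
    (forms n d - K4H38FP.hv ℂ (Fin (n + 1)) d (Multiset.replicate r m)) := by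
  have h := general n r (fun _ => m) d
  rwa [rep_list] at h

lemma general_of_rep {n r m d : ℕ} {h : ℤ}
    (hh : forms n d - K4H38FP.hv ℂ (Fin (n + 1)) d (Multiset.replicate r m) = h) :
    IsGeneralHilbertValue n r (fun _ => m) d h := hh ▸ general_rep n r m d

/-- equal multiplicities -/
lemma equal {n : ℕ} (hn : 2 ≤ n) (m d : ℕ) (hm : 1 ≤ m) :
    (∃ r₀ : ℕ,
      (∀ r : ℕ, r ≤ r₀ → IsGeneralHilbertValue n r (fun _ => m) d (r * conditions n m)) ∧
      (∀ r : ℕ, r₀ + min (leading n m) (const n + 1) ≤ r →
        IsGeneralHilbertValue n r (fun _ => m) d (forms n d)) ∧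
      (∀ r : ℕ, r₀ < r → ∃ H : ℤ, IsGeneralHilbertValue n r (fun _ => m) d H ∧
        2 * (forms n d - H) ≤ 2 * (leading n m - 1) * (conditions n m - leading n m) +
          (leading n m - 1) * (leading n m - 2))) ∧
    (∀ r : ℕ, 2 * (leading n m - 1) * conditions n m - leading n m * (leading n m + 1) <
        2 * (forms n d - r * conditions n m) →
      IsGeneralHilbertValue n r (fun _ => m) d (r * conditions n m)) ∧
    (∀ r : ℕ, 2 * (leading n m - 1) * (conditions n m - m + 1) -
        leading n m * (leading n m - 1) ≤ 2 * (r * conditions n m - forms n d) →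
      IsGeneralHilbertValue n r (fun _ => m) d (forms n d)) := by
  obtain ⟨k, rfl⟩ : ∃ k, m = k + 1 := ⟨m - 1, by omega⟩
  have S := K4H38FP.sys (n := n) (by omega) d
  have eN : conditions n (k + 1) = K4H38FP.nc n (k + 1) := rfl
  have ea : leading n (k + 1) = K4H38FP.ak (Fin (n + 1)) k := by
    rw [K4H38FP.ak_fin (by omega)]
    unfold leading
    rw [show n + (k + 1) - 2 = n + k - 1 by omega]
  have eD : forms n d = ((n + d).choose n : ℕ) := rfl
  have ha : (1 : ℤ) ≤ leading n (k + 1) := by
    rw [ea]
    exact_mod_cast K4H38FP.ak_pos (n := n) (by omega) k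
  have hNk : k ≤ K4H38FP.nc n k := S.le_N k
  have hNs : K4H38FP.nc n (k + 1) = K4H38FP.nc n k + K4H38FP.ak (Fin (n + 1)) k :=
    K4H38FP.nc_succ (n := n) (by omega) k
  have hNsZ : conditions n (k + 1) = K4H38FP.nc n k + leading n (k + 1) := by
    rw [eN, ea, hNs]
    push_cast
    ring
  have hNkZ : (k : ℤ) ≤ K4H38FP.nc n k := by exact_mod_cast hNk
  have hDpos : 1 ≤ (n + d).choose n := Nat.choose_pos (by omega)
  rcases Nat.lt_or_ge d k with hdk | hk
  · -- the multiplicity is larger than `d + 1`
    have hD : (n + d).choose n < K4H38FP.nc n (k + 1) := by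
      unfold K4H38FP.nc
      rw [show n + (k + 1) - 1 = n + k by omega]
      have h1 : (n + d).choose n < (n + (d + 1)).choose n := by
        obtain ⟨q, rfl⟩ : ∃ q, n = q + 1 := ⟨n - 1, by omega⟩
        rw [show q + 1 + (d + 1) = (q + 1 + d) + 1 by omega, Nat.choose_succ_succ']
        have : 0 < (q + 1 + d).choose q := Nat.choose_pos (by omega)
        omega
      exact h1.trans_le (Nat.choose_le_choose n (by omega))
    have hDZ : forms n d + 1 ≤ conditions n (k + 1) := by
      rw [eD, eN]
      exact_mod_cast hD
    have hD0 : (1 : ℤ) ≤ forms n d := by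
      rw [eD]
      exact_mod_cast hDpos
    have hr0 : IsGeneralHilbertValue n 0 (fun _ => k + 1) d 0 := by
      refine general_of_rep ?_
      rw [Multiset.replicate_zero, S.h7, eD]
      simp
    have hr1 : ∀ r : ℕ, 1 ≤ r → IsGeneralHilbertValue n r (fun _ => k + 1) d (forms n d) := by
      intro r hr
      refine general_of_rep ?_
      obtain ⟨q, rfl⟩ : ∃ q, r = q + 1 := ⟨r - 1, by omega⟩
      rw [Multiset.replicate_succ, K4H38FP.hv_top (by omega)]
      simp
    refine ⟨⟨0, ?_, ?_, ?_⟩, ?_, ?_⟩
    · intro r hr
      obtain rfl : r = 0 := by omega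
      simpa using hr0
    · intro r hr
      refine hr1 r ?_
      have h1 : (1 : ℤ) ≤ min (leading n (k + 1)) (const n + 1) := by
        refine le_min ha ?_
        have : (0 : ℤ) ≤ const n := Nat.cast_nonneg _
        linarith
      have : (1 : ℤ) ≤ r := by push_cast at hr; linarith
      exact_mod_cast this
    · intro r hr
      refine ⟨_, hr1 r hr, ?_⟩
      rw [sub_self, mul_zero, hNsZ]
      have h1 : (0 : ℤ) ≤ (leading n (k + 1) - 1) * (leading n (k + 1) - 2) := by
        rcases ha.eq_or_lt with h | h
        · rw [← h]; simp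
        · exact mul_nonneg (by linarith) (by linarith)
      have h2 : (0 : ℤ) ≤ (leading n (k + 1) - 1) * K4H38FP.nc n k :=
        mul_nonneg (by linarith) (by linarith [(Nat.cast_nonneg k : (0 : ℤ) ≤ k)])
      nlinarith
    · intro r hr
      rcases Nat.eq_zero_or_pos r with h0 | h0
      · subst h0
        simpa using hr0
      · exfalso
        have h1 : (1 : ℤ) ≤ r := by exact_mod_cast h0
        have h2 : conditions n (k + 1) ≤ r * conditions n (k + 1) := by nlinarith
        have h3 : (-2 : ℤ) ≤ 2 * (leading n (k + 1) - 1) * conditions n (k + 1) -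
            leading n (k + 1) * (leading n (k + 1) + 1) := by
          rw [hNsZ]
          have h4 : (0 : ℤ) ≤ (leading n (k + 1) - 1) * K4H38FP.nc n k :=
            mul_nonneg (by linarith) (by linarith [(Nat.cast_nonneg k : (0 : ℤ) ≤ k)])
          have h5 : (0 : ℤ) ≤ (leading n (k + 1) - 1) * (leading n (k + 1) - 2) := by
            rcases ha.eq_or_lt with h | h
            · rw [← h]; simp
            · exact mul_nonneg (by linarith) (by linarith)
          nlinarith
        linarith
    · intro r hr
      rcases Nat.eq_zero_or_pos r with h0 | h0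
      · exfalso
        subst h0
        have h4 : (0 : ℤ) ≤ (leading n (k + 1) - 1) * (K4H38FP.nc n k - k) :=
          mul_nonneg (by linarith) (by linarith)
        have h5 : (0 : ℤ) ≤ (leading n (k + 1) - 1) * leading n (k + 1) :=
          mul_nonneg (by linarith) (by linarith)
        rw [hNsZ] at hr
        push_cast at hr
        nlinarith
      · exact hr1 r h0
  -- the main case
  have key : ∀ r : ℕ, K4H38FP.hv ℂ (Fin (n + 1)) d (Multiset.replicate r (k + 1)) +
      r * K4H38FP.nc n (k + 1) = (n + d).choose n →
        IsGeneralHilbertValue n r (fun _ => k + 1) d (r * conditions n (k + 1)) := by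
    intro r hr
    refine general_of_rep ?_
    rw [eD, ← hr, eN]
    push_cast
    ring
  have key0 : ∀ r : ℕ, K4H38FP.hv ℂ (Fin (n + 1)) d (Multiset.replicate r (k + 1)) = 0 →
      IsGeneralHilbertValue n r (fun _ => k + 1) d (forms n d) := by
    intro r hr
    refine general_of_rep ?_
    rw [hr]
    simp
  refine ⟨?_, ?_, ?_⟩
  · obtain ⟨r₀, h1, h2, h3, _⟩ := K4H38CX.window hn hk
    have ec : const n = K4H38CX.cc n := rfl
    refine ⟨r₀, fun r hr => key r (h1 r hr), fun r hr => key0 r (h2 r ?_), fun r hr => ?_⟩
    · rw [ea, ec] at hr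
      exact_mod_cast hr
    · refine ⟨_, general_rep n r (k + 1) d, ?_⟩
      rw [sub_sub_cancel, hNsZ, ea]
      have := h3 r hr
      linarith
  · intro r hr
    refine key r ?_
    have h1 := S.lower (M := k + 1) (by omega) (by omega) (Multiset.replicate r (k + 1))
      (K4H38FP.Sys.rep_le k r)
    rw [K4H38FP.Sys.rep_sum, Nat.add_sub_cancel] at h1
    apply h1
    rw [ea, eN, eD] at hr
    push_cast at hr ⊢
    exact hr
  · intro r hr
    refine key0 r ?_
    by_contra hcon
    have h1 := S.homog_upper (k := k) (r := r) hk (by omega)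
    rw [ea, eN, eD] at hr
    push_cast at hr h1
    have e1 : (K4H38FP.nc n (k + 1) : ℤ) - (k + 1) + 1 = K4H38FP.nc n (k + 1) - k := by ring
    rw [e1] at hr
    linarith


/-- **Main result.** Let `n ≥ 2`, `c = ⌈n / 2⌉ n ^ (n - 1) + n - 2`, `N(m) = C(n + m - 1, n)`,
`D = C(n + d, n)`, `a = C(n + m - 2, n - 1)`.

(1) Arbitrary multiplicities `m₀ ≥ m₁ ≥ …`, any `r`, `d`: the general value `H` is at most `D` and
`∑ N(m i)`. If `H ≠ D`, then the points with the indices `i ≥ c` impose independent conditions, the
sum of their `m i ^ n` is at most `d ^ n`, and `∑ N(m i) - H` is at most the sum of `N(m i) - m i`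
over the indices `i < c`. If `H ≠ ∑ N(m i)`, then `D - H ≤ (m₀ - 1) ^ n + (n - 2) N(m₀)`.

(2) Equal multiplicities `m`: for given `m`, `d` the value is `r N` for `r ≤ r₀`, and `D` for
`r ≥ r₀ + min (a, c + 1)`, with a bound of `D - H` in between and explicit sufficient conditions
for both values.

(3) For given `m` and `r` with `(2 c) ^ n (m + n - 1) ^ n < n (n (r - c)) ^ (n - 1)` the value is
`min (D, r N)` for all the degrees `d` but at most one.

(4) Conversely, for suitable `m` and `d` the value is smaller than `min (D, r N)` for all the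
`2 ^ n - 2` numbers `r` with `2 ≤ r < 2 ^ n`. -/
theorem result (n : ℕ) (hn : 2 ≤ n) :
    (∀ (r : ℕ) (m : ℕ → ℕ) (d : ℕ), Antitone m →
      ∃ H : ℤ, IsGeneralHilbertValue n r m d H ∧
        H ≤ forms n d ∧ H ≤ ∑ i ∈ Finset.range r, conditions n (m i) ∧
        (H ≠ forms n d →
          IsGeneralHilbertValue n (r - const n) (fun i => m (i + const n)) d
            (∑ i ∈ Finset.range (r - const n), conditions n (m (i + const n))) ∧
          ∑ i ∈ Finset.range (r - const n), m (i + const n) ^ n ≤ d ^ n ∧
          ∑ i ∈ Finset.range r, conditions n (m i) - H ≤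
            ∑ i ∈ Finset.range (min (const n) r), (conditions n (m i) - m i)) ∧
        (H ≠ ∑ i ∈ Finset.range r, conditions n (m i) →
          forms n d - H ≤ ((m 0 - 1 : ℕ) : ℤ) ^ n + ((n : ℤ) - 2) * conditions n (m 0))) ∧
    (∀ m d : ℕ, 1 ≤ m →
      (∃ r₀ : ℕ,
        (∀ r : ℕ, r ≤ r₀ → IsGeneralHilbertValue n r (fun _ => m) d (r * conditions n m)) ∧
        (∀ r : ℕ, r₀ + min (leading n m) (const n + 1) ≤ r →
          IsGeneralHilbertValue n r (fun _ => m) d (forms n d)) ∧
        (∀ r : ℕ, r₀ < r → ∃ H : ℤ, IsGeneralHilbertValue n r (fun _ => m) d H ∧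
          2 * (forms n d - H) ≤ 2 * (leading n m - 1) * (conditions n m - leading n m) +
            (leading n m - 1) * (leading n m - 2))) ∧
      (∀ r : ℕ, (2 * (leading n m - 1) * conditions n m - leading n m * (leading n m + 1) <
            2 * (forms n d - r * conditions n m) ∨
          ((m - 1 : ℕ) : ℤ) ^ n + ((n : ℤ) - 2) * conditions n m <
            forms n d - r * conditions n m) →
        IsGeneralHilbertValue n r (fun _ => m) d (r * conditions n m)) ∧
      (∀ r : ℕ, (2 * (leading n m - 1) * (conditions n m - m + 1) -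
            leading n m * (leading n m - 1) ≤ 2 * (r * conditions n m - forms n d) ∨
          const n * (conditions n m - m) ≤ r * conditions n m - forms n d) →
        IsGeneralHilbertValue n r (fun _ => m) d (forms n d))) ∧
    (∀ r m : ℕ, 1 ≤ m →
      (2 * const n) ^ n * (m + n - 1) ^ n < n * (n * (r - const n)) ^ (n - 1) →
        ∃ d₀ : ℕ, ∀ d : ℕ, d ≠ d₀ → IsGeneralHilbertValue n r (fun _ => m) d
          (min (forms n d) (r * conditions n m))) ∧
    (∃ m d : ℕ, 1 ≤ m ∧ ∀ r : ℕ, 2 ≤ r → r < 2 ^ n →
      ∃ H : ℤ, IsGeneralHilbertValue n r (fun _ => m) d H ∧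
        H < min (forms n d) (r * conditions n m)) := by
  have hrep : ∀ r m : ℕ, (((List.range r).map fun _ => m : List ℕ) : Multiset ℕ) =
      Multiset.replicate r m := rep_list
  -- the consequences for equal multiplicities
  have main1 : ∀ (r m d : ℕ),
      (const n * conditions n m < forms n d - r * conditions n m →
        IsGeneralHilbertValue n r (fun _ => m) d (r * conditions n m)) ∧
      (((m - 1 : ℕ) : ℤ) ^ n + ((n : ℤ) - 2) * conditions n m <
          forms n d - r * conditions n m →
        IsGeneralHilbertValue n r (fun _ => m) d (r * conditions n m)) ∧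
      (const n * (conditions n m - m) ≤ r * conditions n m - forms n d →
        IsGeneralHilbertValue n r (fun _ => m) d (forms n d)) := by
    intro r m d
    obtain ⟨H, hH, ⟨hle', hle⟩, h1, h2⟩ := mixed hn r (m := fun _ => m) antitone_const d
    rw [Finset.sum_const, Finset.card_range, nsmul_eq_mul] at h1 h2 hle
    refine ⟨fun h => ?_, fun h => ?_, fun h => ?_⟩
    · by_contra hcon
      have h3 := (h2 (by rintro rfl; exact hcon hH)).1
      linarith
    · by_contra hcon
      have h3 := (h2 (by rintro rfl; exact hcon hH)).2
      linarith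
    · by_contra hcon
      have hne : H ≠ forms n d := by rintro rfl; exact hcon hH
      have h3 := (h1 hne).2.2
      rw [Finset.sum_const, Finset.card_range, nsmul_eq_mul, Finset.sum_const,
        Finset.card_range, nsmul_eq_mul] at h3
      have h5 : (0 : ℤ) ≤ conditions n m - m := sub_nonneg.2 (le_conditions (by omega) _)
      have h4 : ((min (const n) r : ℕ) : ℤ) * (conditions n m - m) ≤
          const n * (conditions n m - m) := by
        refine mul_le_mul_of_nonneg_right ?_ h5
        exact_mod_cast min_le_left (const n) r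
      have h6 : H < forms n d := lt_of_le_of_ne hle' hne
      linarith
  refine ⟨fun r m d hm => ?_, fun m d hm => ?_, fun r m hm hr => ?_, ?_⟩
  · obtain ⟨H, hH, ⟨hle', hle⟩, h1, h2⟩ := mixed hn r hm d
    exact ⟨H, hH, hle', hle, h1, fun h => (h2 h).2⟩
  · obtain ⟨h1, h2, h3⟩ := equal hn m d hm
    refine ⟨h1, fun r hr => ?_, fun r hr => ?_⟩
    · rcases hr with hr | hr
      · exact h2 r hr
      · exact (main1 r m d).2.1 hr
    · rcases hr with hr | hr
      · exact h3 r hr
      · exact (main1 r m d).2.2 hr
  · -- at most one degree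
    have key : ∀ d : ℕ, ¬ IsGeneralHilbertValue n r (fun _ => m) d
        (min (forms n d) (r * conditions n m)) →
          forms n d ≤ r * conditions n m + const n * conditions n m ∧
          r * conditions n m ≤ forms n d + const n * conditions n m := by
      intro d hd
      obtain ⟨h1, _, h2⟩ := main1 r m d
      have hN : (0 : ℤ) ≤ conditions n m := Nat.cast_nonneg _
      have hm0 : (0 : ℤ) ≤ m := Nat.cast_nonneg _
      have hc0 : (0 : ℤ) ≤ const n := Nat.cast_nonneg _
      have hcN : (0 : ℤ) ≤ const n * conditions n m := mul_nonneg hc0 hN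
      have hcm : (0 : ℤ) ≤ const n * (m : ℤ) := mul_nonneg hc0 hm0
      constructor
      · by_contra hcon
        apply hd
        rw [min_eq_right (by linarith)]
        exact h1 (by linarith)
      · by_contra hcon
        apply hd
        rw [min_eq_left (by linarith)]
        exact h2 (by rw [mul_sub]; linarith)
    have two : ∀ d d' : ℕ, d < d' → ¬ IsGeneralHilbertValue n r (fun _ => m) d
        (min (forms n d) (r * conditions n m)) → ¬ IsGeneralHilbertValue n r (fun _ => m) d'
        (min (forms n d') (r * conditions n m)) → False := by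
      intro d d' hdd hd hd'
      have h1 := (key d hd).2
      have h2 := (key d' hd').1
      have eN : conditions n m = K4H38FP.nc n m := rfl
      rw [eN] at h1 h2
      unfold forms at h1 h2
      have h3 := K4H38CW.two_degrees (n := n) (c := const n) (m := m) (r := r) hn hm hdd
        (by exact_mod_cast h1) (by exact_mod_cast h2)
      omega
    by_cases hex : ∃ d₀, ¬ IsGeneralHilbertValue n r (fun _ => m) d₀
        (min (forms n d₀) (r * conditions n m))
    · obtain ⟨d₀, hd₀⟩ := hex
      refine ⟨d₀, fun d hd => ?_⟩
      by_contra hcon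
      rcases lt_or_gt_of_ne hd with h | h
      · exact two d d₀ h hcon hd₀
      · exact two d₀ d h hd₀ hcon
    · push Not at hex
      exact ⟨0, fun d _ => hex d⟩
  · obtain ⟨m, d, hm, h⟩ := K4H38CX.sharp hn
    refine ⟨m, d, hm, fun r hr2 hr => ⟨_, general_rep n r _ d, ?_⟩⟩
    obtain ⟨h1, h2⟩ := h r hr2 hr
    have eN : conditions n m = K4H38FP.nc n m := rfl
    rw [eN]
    refine lt_min ?_ ?_
    · have : (0 : ℤ) < K4H38FP.hv ℂ (Fin (n + 1)) d (Multiset.replicate r m) := by
        exact_mod_cast Nat.pos_of_ne_zero h1
      linarith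
    · have h3 : (((n + d).choose n : ℕ) : ℤ) <
          K4H38FP.hv ℂ (Fin (n + 1)) d (Multiset.replicate r m) + r * K4H38FP.nc n m := by
        exact_mod_cast h2
      unfold forms
      linarith

end Pool.Agent.Results.MP_b56c98_ag.ConstantWindow
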