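import Pool.Agent.K4H42.WM

set_option autoImplicit false

/-!
# The Hilbert function of `r ≥ 2 ^ n` general points of multiplicity `m` outside a window

The starting result `UniformWindow` is about `r ≥ 3 ^ n` points. Here `n ≥ 3` and `r ≥ 2 ^ n`, and
`m` is arbitrary. The Hilbert function of `R / I^(m)` for `r` general points of `ℙⁿ` is

* `H_{n,r,m}(d) = binom (n + d) n` for `d < (8 / 9 * r) ^ (1 / n) * m`;
* `H_{n,r,m}(d) = r * binom (n + m - 1) n` for `d ≥ (9 / 8 * r) ^ (1 / n) * (m + n - 1) + n + 1 / 2`.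

More precisely we find slopes `t`, usually closer to `r ^ (1 / n)`, such that the same is true for
`d < t * m`, and for `d ≥ t * (m + n - 1) + n + 3`. The constant `8 / 9` cannot be improved: for nine
points of `ℙ³` it gives the slope `2`, and the powers of the quadric through the points have degree
`2 m` and multiplicity `m`.

In the degeneration to the torus the simplex is flattened by integral shear transformations to a
region which is close to a box. For `r ≥ 3 ^ n` the sides of the box could be chosen equal. Here two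
of the directions are treated by a zigzag line, first with the factor `2` or `5 / 2`, so that the
sides of the box are `ρ`, ..., `ρ`, `a` with `a` from the discrete set `a0 + k δ / ρ`, and `ρ` and
`k` are found with the intermediate value theorem.
-/

namespace Pool.Agent.Results.MP_b56c98_ag.FewerPoints

open MvPolynomial
open scoped LinearAlgebra.Projectivization
open Pool.Agent.H350R3.MG

/-- The `m`-th symbolic power of the ideal of the points `P₁, …, P_r`. -/
noncomputable def symbolicPower {n r : ℕ} (m : ℕ) (P : Fin r → ℙ ℂ (Fin (n + 1) → ℂ)) :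
    Ideal (MvPolynomial (Fin (n + 1)) ℂ) :=
  ⨅ i, primeIdeal (P i) ^ m

/-- The Hilbert function `dim R_d - dim J_d` of `R / J`. -/
noncomputable def hilbert {n : ℕ} (J : Ideal (MvPolynomial (Fin (n + 1)) ℂ)) (d : ℕ) : ℤ :=
  (Module.finrank ℂ (homogeneousSubmodule (Fin (n + 1)) ℂ d) : ℤ) -
    Module.finrank ℂ (homogeneousSubmodule (Fin (n + 1)) ℂ d ⊓ Submodule.restrictScalars ℂ J :
      Submodule ℂ (MvPolynomial (Fin (n + 1)) ℂ))

/-- `h` is the value `H_{n,r,m}(d)` of the Hilbert function of `R / I^(m)` for `r` general points: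
the value is `h` for all the `r`-tuples of points in a nonempty Zariski open set. -/
def IsGeneralHilbertValue (n r m d : ℕ) (h : ℤ) : Prop :=
  Generally (fun P : Fin r → ℙ ℂ (Fin (n + 1) → ℂ) => hilbert (symbolicPower m P) d = h)

/-- the value and the inequality, if there are no forms -/
theorem of_empty {n r m d : ℕ} (h : Generally (fun P : Fin r → ℙ ℂ (Fin (n + 2) → ℂ) =>
    TH3.IR.pforms d (fun _ => m) P = ⊥ ∧
      (d + (n + 1)).choose (n + 1) ≤ r * (m + n).choose (n + 1))) :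
    IsGeneralHilbertValue (n + 1) r m d ((n + 1 + d).choose (n + 1)) ∧
      (n + 1 + d).choose (n + 1) ≤ r * (n + 1 + m - 1).choose (n + 1) := by
  obtain ⟨U, hU, ⟨P0, hP0⟩, h⟩ := h
  have hdim : Module.finrank ℂ (homogeneousSubmodule (Fin (n + 1 + 1)) ℂ d) =
      (n + 1 + d).choose (n + 1) := by
    rw [TH3.IR.finrank_forms (by omega) d, Nat.add_comm d (n + 1)]
  refine ⟨⟨U, hU, ⟨P0, hP0⟩, fun P hP => ?_⟩, ?_⟩
  · have h3 := (h P hP).1
    have hpf : TH3.IR.pforms d (fun _ : Fin r => m) P =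
      (homogeneousSubmodule (Fin (n + 1 + 1)) ℂ d ⊓
        Submodule.restrictScalars ℂ (symbolicPower m P) :
        Submodule ℂ (MvPolynomial (Fin (n + 1 + 1)) ℂ)) := rfl
    rw [hpf] at h3
    show hilbert (symbolicPower m P) d = ((n + 1 + d).choose (n + 1) : ℤ)
    unfold hilbert
    rw [h3, finrank_bot, hdim]
    simp
  · have h4 := (h P0 hP0).2
    have e1 : n + 1 + m - 1 = m + n := by omega
    rw [e1, Nat.add_comm (n + 1) d]
    exact h4

/-- the value and the inequality, if the conditions are independent -/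
theorem of_indep {k r m d : ℕ} (h : Generally (fun P : Fin r → ℙ ℂ (Fin (k + 3) → ℂ) =>
      Module.finrank ℂ ↥(TH3.IR.pforms d (fun _ => m) P) +
        r * (m + (k + 1)).choose (k + 2) = (d + (k + 2)).choose (k + 2))) :
    IsGeneralHilbertValue (k + 2) r m d (r * (k + 2 + m - 1).choose (k + 2)) ∧
      r * (k + 2 + m - 1).choose (k + 2) ≤ (k + 2 + d).choose (k + 2) := by
  obtain ⟨U, hU, ⟨P0, hP0⟩, h⟩ := h
  have hdim : Module.finrank ℂ (homogeneousSubmodule (Fin (k + 2 + 1)) ℂ d) =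
      (k + 2 + d).choose (k + 2) := by
    rw [TH3.IR.finrank_forms (by omega) d, Nat.add_comm d (k + 2)]
  have e1 : m + (k + 1) = k + 2 + m - 1 := by omega
  have e2 : d + (k + 2) = k + 2 + d := by omega
  rw [e1, e2] at h
  refine ⟨⟨U, hU, ⟨P0, hP0⟩, fun P hP => ?_⟩, ?_⟩
  · have h3 := h P hP
    beta_reduce at h3
    have hpf : TH3.IR.pforms d (fun _ : Fin r => m) P =
      (homogeneousSubmodule (Fin (k + 2 + 1)) ℂ d ⊓
        Submodule.restrictScalars ℂ (symbolicPower m P) :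
        Submodule ℂ (MvPolynomial (Fin (k + 2 + 1)) ℂ)) := rfl
    rw [hpf] at h3
    show hilbert (symbolicPower m P) d = (r : ℤ) * ((k + 2 + m - 1).choose (k + 2) : ℤ)
    unfold hilbert
    rw [hdim]
    have h4 : (r : ℤ) * ((k + 2 + m - 1).choose (k + 2) : ℤ) =
        ((r * (k + 2 + m - 1).choose (k + 2) : ℕ) : ℤ) := by
      push_cast
      rfl
    rw [h4]
    omega
  · have h4 := h P0 hP0
    beta_reduce at h4
    omega

/-- emptiness for the slope `t` -/
theorem slope_empty (n r m d : ℕ) (hn : 3 ≤ n) (hr : 2 ^ n ≤ r) (t : ℝ)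
    (ht : t ≤ 2 ∨ t ^ (n - 1) * (t + 1 / 4) ≤ r ∨
      (5 / 2 ≤ t ∧ t ^ (n - 1) * (t + 1 / 25) ≤ r)) (hd : (d : ℝ) < t * m) :
    IsGeneralHilbertValue n r m d ((n + d).choose n) ∧
      (n + d).choose n ≤ r * (n + m - 1).choose n := by
  obtain ⟨k, rfl⟩ : ∃ k, n = k + 3 := ⟨n - 3, by omega⟩
  have e1 : k + 3 - 1 = k + 2 := by omega
  rw [e1] at ht
  have hm : (0 : ℝ) ≤ m := Nat.cast_nonneg _
  refine of_empty (n := k + 2) (K4H42.gen_empty ?_)
  rcases le_total t 2 with h2 | h2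
  · exact K4H42.noForms_castLE hr (K4H42.noForms_of (K4H42.empS_pow m d (by nlinarith)))
  rcases ht with ht | ht | ht
  · exact K4H42.noForms_castLE hr (K4H42.noForms_of (K4H42.empS_pow m d (by nlinarith)))
  · refine K4H42.noForms_of (K4H42.empS_first K4H42.First.two m d h2 ?_ hd)
    have e : (1 / 2 : ℝ) / 2 = 1 / 4 := by norm_num
    rw [e]
    exact ht
  · refine K4H42.noForms_of (K4H42.empS_first K4H42.First.five m d ht.1 ?_ hd)
    have e : (1 / 10 : ℝ) / (5 / 2) = 1 / 25 := by norm_num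
    rw [e]
    exact ht.2

/-- independence for the slope `t` -/
theorem slope_indep (n r m d : ℕ) (hn : 3 ≤ n) (hr : 2 ^ n ≤ r) (t : ℝ) (ht0 : 0 ≤ t)
    (ht : ((r : ℝ) ≤ 2 * t ^ (n - 1) ∨ (r : ℝ) ≤ t ^ (n - 1) * (t - 1 / 4)) ∧
        t * ((m : ℝ) + n - 1) + n + 1 / 2 ≤ d ∨
      5 / 2 ≤ t ∧ (r : ℝ) ≤ t ^ (n - 1) * (t - 1 / 25) ∧
        t * ((m : ℝ) + n - 1) + n + 3 ≤ d) :
    IsGeneralHilbertValue n r m d (r * (n + m - 1).choose n) ∧
      r * (n + m - 1).choose n ≤ (n + d).choose n := by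
  obtain ⟨k, rfl⟩ : ∃ k, n = k + 3 := ⟨n - 3, by omega⟩
  have e1 : k + 3 - 1 = k + 2 := by omega
  rw [e1] at ht
  have e2 : ((k + 3 : ℕ) : ℝ) = (k : ℝ) + 3 := by push_cast; ring
  rw [e2] at ht
  refine of_indep (k := k + 1) (K4H42.gen_indep ?_)
  rcases ht with ⟨h1 | h1, h2⟩ | ⟨h1, h2, h3⟩
  · exact K4H42.surS_zero m d hr h1 ht0 h2
  · exact K4H42.surS_quarter m d hr h1 ht0 h2
  · exact K4H42.surS_fine m d hr h1 h2 h3

/-- Let `n ≥ 3`, `r ≥ 2 ^ n` and `m`, `d` be arbitrary.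

1. If `d < (8 / 9 * r) ^ (1 / n) * m`, then `H_{n,r,m}(d) = binom (n + d) n`.
2. If `d ≥ (9 / 8 * r) ^ (1 / n) * (m + n - 1) + n + 1 / 2`, then
  `H_{n,r,m}(d) = r * binom (n + m - 1) n`.
3. `H_{n,r,m}(d) = binom (n + d) n` for `d < t * m` if `t ≤ 2`, or if `t ^ (n - 1) * (t + 1 / 4) ≤ r`,
  or if `t ≥ 5 / 2` and `t ^ (n - 1) * (t + 1 / 25) ≤ r`.
4. `H_{n,r,m}(d) = r * binom (n + m - 1) n` for `d ≥ t * (m + n - 1) + n + 1 / 2` if
  `r ≤ 2 * t ^ (n - 1)` or if `r ≤ t ^ (n - 1) * (t - 1 / 4)`.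
5. `H_{n,r,m}(d) = r * binom (n + m - 1) n` for `d ≥ t * (m + n - 1) + n + 3` if `t ≥ 5 / 2` and
  `r ≤ t ^ (n - 1) * (t - 1 / 25)`.

In all cases the value is `min (binom (n + d) n) (r * binom (n + m - 1) n)`. -/
theorem result (n r m d : ℕ) (hn : 3 ≤ n) (hr : 2 ^ n ≤ r) :
    ((d : ℝ) < (8 / 9 * (r : ℝ)) ^ (1 / (n : ℝ)) * m →
      IsGeneralHilbertValue n r m d ((n + d).choose n) ∧
        (n + d).choose n ≤ r * (n + m - 1).choose n) ∧
    ((9 / 8 * (r : ℝ)) ^ (1 / (n : ℝ)) * ((m : ℝ) + n - 1) + n + 1 / 2 ≤ d →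
      IsGeneralHilbertValue n r m d (r * (n + m - 1).choose n) ∧
        r * (n + m - 1).choose n ≤ (n + d).choose n) ∧
    (∀ t : ℝ, t ≤ 2 ∨ t ^ (n - 1) * (t + 1 / 4) ≤ r ∨
        (5 / 2 ≤ t ∧ t ^ (n - 1) * (t + 1 / 25) ≤ r) → (d : ℝ) < t * m →
      IsGeneralHilbertValue n r m d ((n + d).choose n) ∧
        (n + d).choose n ≤ r * (n + m - 1).choose n) ∧
    (∀ t : ℝ, 0 ≤ t → ((r : ℝ) ≤ 2 * t ^ (n - 1) ∨ (r : ℝ) ≤ t ^ (n - 1) * (t - 1 / 4)) →
        t * ((m : ℝ) + n - 1) + n + 1 / 2 ≤ d →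
      IsGeneralHilbertValue n r m d (r * (n + m - 1).choose n) ∧
        r * (n + m - 1).choose n ≤ (n + d).choose n) ∧
    (∀ t : ℝ, 5 / 2 ≤ t → (r : ℝ) ≤ t ^ (n - 1) * (t - 1 / 25) →
        t * ((m : ℝ) + n - 1) + n + 3 ≤ d →
      IsGeneralHilbertValue n r m d (r * (n + m - 1).choose n) ∧
        r * (n + m - 1).choose n ≤ (n + d).choose n) := by
  have hr0 : (0 : ℝ) < r := by
    have : 0 < r := lt_of_lt_of_le (by positivity) hr
    exact_mod_cast this
  obtain ⟨k, hk⟩ : ∃ k, n = k + 1 := ⟨n - 1, by omega⟩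
  have hk1 : n - 1 = k := by omega
  refine ⟨fun hd => ?_, fun hd => ?_, fun t ht hd => slope_empty n r m d hn hr t ht hd,
    fun t ht0 ht hd => slope_indep n r m d hn hr t ht0 (Or.inl ⟨ht, hd⟩),
    fun t ht1 ht hd => slope_indep n r m d hn hr t (by linarith) (Or.inr ⟨ht1, ht, hd⟩)⟩
  · obtain ⟨t, ht⟩ : ∃ t : ℝ, t = (8 / 9 * (r : ℝ)) ^ (1 / (n : ℝ)) := ⟨_, rfl⟩
    rw [← ht] at hd
    have ht0 : 0 < t := by rw [ht]; positivity
    have htn : t ^ n = 8 / 9 * r := by
      rw [ht, one_div, Real.rpow_inv_natCast_pow (by positivity) (by omega)]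
    refine slope_empty n r m d hn hr t ?_ hd
    rcases le_total t 2 with h2 | h2
    · exact Or.inl h2
    · refine Or.inr (Or.inl ?_)
      have h3 : (r : ℝ) = 9 / 8 * t ^ n := by rw [htn]; ring
      rw [h3, hk1, hk, pow_succ]
      have h4 : 0 < t ^ k := by positivity
      nlinarith
  · obtain ⟨t, ht⟩ : ∃ t : ℝ, t = (9 / 8 * (r : ℝ)) ^ (1 / (n : ℝ)) := ⟨_, rfl⟩
    rw [← ht] at hd
    have ht0 : 0 < t := by rw [ht]; positivity
    have htn : t ^ n = 9 / 8 * r := by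
      rw [ht, one_div, Real.rpow_inv_natCast_pow (by positivity) (by omega)]
    refine slope_indep n r m d hn hr t ht0.le (Or.inl ⟨?_, hd⟩)
    have h3 : (r : ℝ) = 8 / 9 * t ^ n := by rw [htn]; ring
    rw [h3, hk1, hk, pow_succ]
    have h4 : 0 < t ^ k := by positivity
    rcases le_total t (9 / 4) with h2 | h2
    · left; nlinarith
    · right; nlinarith

end Pool.Agent.Results.MP_b56c98_ag.FewerPoints
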