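import Pool.Agent.K4H42.WC
import Pool.Agent.R873.SB.PGen
import Pool.Agent.R873.SB.PNum

set_option autoImplicit false

/-!
# The initial degree of general fat points for fewer than `2 ^ n` points of `ℙⁿ`

The starting results treat `r ≥ 3 ^ n` points and `MP_b56c98_ag.FewerPoints` treats `r ≥ 2 ^ n` points.
Here `r` is arbitrary, the new case is `n + 2 ≤ r < 2 ^ n`. We find slopes `t` such that
`H_{n,r,m}(d) = binom (n + d) n` for all `m` and all `d < t * m`, and `r` is at least `t ^ n` and at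
most a constant (which depends only on `t`) times `t ^ n`; by the count of the dimensions such a slope
satisfies `t ^ n ≤ r`. So the Waldschmidt constant of `r = c ^ n` general points of `ℙⁿ` is
asymptotically `c = r ^ (1 / n)` for every `c > 1`.

In the degeneration to the torus the simplex of the exponents is flattened by integral shear
transformations, once in every height coordinate. The widths of the regions are `d` times the members
of a chain of integers `1 = c 0 ≤ c 1 ≤ … ≤ c (n - 1) = M`, and the `k`-th coordinate gets the factor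
`c k / c (k - 1)`. For `t ≤ 2` the nodal steps of the previous results are not available.
-/

namespace Pool.Agent.Results.MP_b56c98_ag.FewerThanPowerOfTwo

open MvPolynomial
open scoped LinearAlgebra.Projectivization
open Pool.Agent.H350R3.MG

/-- The `m`-th symbolic power of the ideal of the points `P₁, …, P_r`. -/
noncomputable def symbolicPower {n r : ℕ} (m : ℕ) (P : Fin r → ℙ ℂ (Fin (n + 1) → ℂ)) :
    Ideal (MvPolynomial (Fin (n + 1)) ℂ) :=
  ⨅ i, primeIdeal (P i) ^ m

/-- The Hilbert function `dim R_d - dim J_d` of `R / J`. -/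
noncomputable def hilbert {n : ℕ} (J : Ideal (MvPolynomial (Fin (n + 1)) ℂ)) (d : ℕ) : ℤ :=
  (Module.finrank ℂ (homogeneousSubmodule (Fin (n + 1)) ℂ d) : ℤ) -
    Module.finrank ℂ (homogeneousSubmodule (Fin (n + 1)) ℂ d ⊓ Submodule.restrictScalars ℂ J :
      Submodule ℂ (MvPolynomial (Fin (n + 1)) ℂ))

/-- `h` is the value `H_{n,r,m}(d)` of the Hilbert function of `R / I^(m)` for `r` general points:
the value is `h` for all the `r`-tuples of points in a nonempty Zariski open set. -/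
def IsGeneralHilbertValue (n r m d : ℕ) (h : ℤ) : Prop :=
  Generally (fun P : Fin r → ℙ ℂ (Fin (n + 1) → ℂ) => hilbert (symbolicPower m P) d = h)

/-- The sequence of integers `1`, `⌈t⌉`, `⌈t * ⌈t⌉⌉`, …: every term is the previous one times `t`,
rounded up. -/
noncomputable def chain (t : ℝ) : ℕ → ℕ
  | 0 => 1
  | k + 1 => ⌈t * (chain t k : ℝ)⌉₊

theorem chain_eq (t : ℝ) (k : ℕ) : K4H42.chainFrom t 1 k = chain t k := by
  induction k with
  | zero => rfl
  | succ k ih =>
    show ⌈t * (K4H42.chainFrom t 1 k : ℝ)⌉₊ = ⌈t * (chain t k : ℝ)⌉₊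
    rw [ih]

/-- the value and the inequality, if there are no forms -/
theorem of_empty {n r m d : ℕ} (h : Generally (fun P : Fin r → ℙ ℂ (Fin (n + 2) → ℂ) =>
    TH3.IR.pforms d (fun _ => m) P = ⊥ ∧
      (d + (n + 1)).choose (n + 1) ≤ r * (m + n).choose (n + 1))) :
    IsGeneralHilbertValue (n + 1) r m d ((n + 1 + d).choose (n + 1)) ∧
      (n + 1 + d).choose (n + 1) ≤ r * (n + 1 + m - 1).choose (n + 1) := by
  obtain ⟨U, hU, ⟨P0, hP0⟩, h⟩ := h
  have hdim : Module.finrank ℂ (homogeneousSubmodule (Fin (n + 1 + 1)) ℂ d) =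
      (n + 1 + d).choose (n + 1) := by
    rw [TH3.IR.finrank_forms (by omega) d, Nat.add_comm d (n + 1)]
  refine ⟨⟨U, hU, ⟨P0, hP0⟩, fun P hP => ?_⟩, ?_⟩
  · have h3 := (h P hP).1
    have hpf : TH3.IR.pforms d (fun _ : Fin r => m) P =
      (homogeneousSubmodule (Fin (n + 1 + 1)) ℂ d ⊓
        Submodule.restrictScalars ℂ (symbolicPower m P) :
        Submodule ℂ (MvPolynomial (Fin (n + 1 + 1)) ℂ)) := rfl
    rw [hpf] at h3
    show hilbert (symbolicPower m P) d = ((n + 1 + d).choose (n + 1) : ℤ)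
    unfold hilbert
    rw [h3, finrank_bot, hdim]
    simp
  · have h4 := (h P0 hP0).2
    have e1 : n + 1 + m - 1 = m + n := by omega
    rw [e1, Nat.add_comm (n + 1) d]
    exact h4

/-- no forms, slope `r / M` -/
theorem gslope (n r M m d : ℕ) (hn : 2 ≤ n) (hM : 1 ≤ M) (hMr : M ≤ r)
    (hch : chain ((r : ℝ) / M) (n - 1) ≤ M) (hd : M * d < r * m) :
    Generally (fun P : Fin r → ℙ ℂ (Fin (n + 1) → ℂ) =>
      TH3.IR.pforms d (fun _ => m) P = ⊥) ∧
    IsGeneralHilbertValue n r m d ((n + d).choose n) ∧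
      (n + d).choose n ≤ r * (n + m - 1).choose n := by
  obtain ⟨k, rfl⟩ : ∃ k, n = k + 2 := ⟨n - 2, by omega⟩
  have h := K4H42.gen_empty (n := k + 1) (K4H42.noForms_of
    (K4H42.empS_chain (ι := Fin r) (σ := Fin (k + 1)) (w := fun _ => m) (d := d) hM
      (by simpa using hMr) (by
        rw [Fintype.card_fin, Fintype.card_fin, chain_eq]
        have e : k + 2 - 1 = k + 1 := by omega
        rw [e] at hch
        exact hch) (by
        rw [Finset.sum_const, Finset.card_univ, Fintype.card_fin, nsmul_eq_mul]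
        exact_mod_cast hd)))
  refine ⟨?_, of_empty (n := k + 1) h⟩
  obtain ⟨U, hU, hU', h⟩ := h
  exact ⟨U, hU, hU', fun P hP => (h P hP).1⟩

theorem chain_le {t : ℝ} (ht : 1 < t) (k : ℕ) : (chain t k : ℝ) ≤ (t ^ (k + 1) - 1) / (t - 1) := by
  have h1 : 0 < t - 1 := by linarith
  induction k with
  | zero =>
    show ((1 : ℕ) : ℝ) ≤ _
    rw [zero_add, pow_one, div_self h1.ne', Nat.cast_one]
  | succ k ih =>
    have h2 : (0 : ℝ) ≤ t * (chain t k : ℝ) := by positivity
    have h3 : (chain t (k + 1) : ℝ) < t * (chain t k : ℝ) + 1 := Nat.ceil_lt_add_one h2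
    have h4 : t * (chain t k : ℝ) ≤ t * ((t ^ (k + 1) - 1) / (t - 1)) :=
      mul_le_mul_of_nonneg_left ih (by linarith)
    have h5 : (t ^ (k + 1 + 1) - 1) / (t - 1) = t * ((t ^ (k + 1) - 1) / (t - 1)) + 1 := by
      field_simp
      ring
    rw [h5]
    linarith

/-- no forms, slope `t` -/
theorem gslope_real (n r m d : ℕ) (hn : 2 ≤ n) (t : ℝ) (ht : 1 < t) (ht2 : t ≤ 2)
    (hr : 2 * t ^ (n + 1) ≤ (t - 1) * r) (hd : (d : ℝ) < t * m) :
    Generally (fun P : Fin r → ℙ ℂ (Fin (n + 1) → ℂ) =>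
      TH3.IR.pforms d (fun _ => m) P = ⊥) ∧
    IsGeneralHilbertValue n r m d ((n + d).choose n) ∧
      (n + d).choose n ≤ r * (n + m - 1).choose n := by
  have ht0 : 0 < t := by linarith
  have ht1 : 0 < t - 1 := by linarith
  obtain ⟨x, hx⟩ : ∃ x : ℝ, x = r / t := ⟨_, rfl⟩
  have hrx : (r : ℝ) = t * x := by rw [hx]; field_simp
  -- the number `x = r / t` is large
  have hx1 : 2 * t ^ n ≤ (t - 1) * x := by
    rw [hrx, pow_succ] at hr
    have : t * (2 * t ^ n) ≤ t * ((t - 1) * x) := by nlinarith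
    exact le_of_mul_le_mul_left this ht0
  have hber : 1 + (n : ℝ) * (t - 1) ≤ t ^ n := by
    have := one_add_mul_le_pow (a := t - 1) (by linarith) n
    simpa using this
  have hn0 : (0 : ℝ) ≤ n := Nat.cast_nonneg n
  have hx2 : 2 * (n : ℝ) + 2 ≤ x := by
    have h1 : (t - 1) * (2 * (n : ℝ) + 2) ≤ (t - 1) * x := by nlinarith
    exact le_of_mul_le_mul_left h1 ht1
  obtain ⟨M, hM⟩ : ∃ M : ℕ, M = ⌊x⌋₊ := ⟨_, rfl⟩
  have hMx : (M : ℝ) ≤ x := by rw [hM]; exact Nat.floor_le (by linarith)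
  have hxM : x < M + 1 := by rw [hM]; exact Nat.lt_floor_add_one x
  have hM1 : (1 : ℝ) ≤ M := by linarith
  have hM0 : (0 : ℝ) < M := by linarith
  have hMr : (M : ℝ) ≤ r := by rw [hrx]; nlinarith
  obtain ⟨T, hT⟩ : ∃ T : ℝ, T = r / M := ⟨_, rfl⟩
  have hTt : t ≤ T := by
    rw [hT, le_div_iff₀ hM0, hrx]
    exact mul_le_mul_of_nonneg_left hMx ht0.le
  have hT1 : 1 < T := by linarith
  have hTu : T ≤ t * (1 + 1 / (2 * (n : ℝ) + 1)) := by
    rw [hT, div_le_iff₀ hM0, hrx, mul_assoc]
    refine mul_le_mul_of_nonneg_left ?_ ht0.le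
    have h1 : (0 : ℝ) < 2 * (n : ℝ) + 1 := by linarith
    have h2 : 2 * (n : ℝ) + 1 ≤ M := by linarith
    have h3 : (1 : ℝ) ≤ 1 / (2 * (n : ℝ) + 1) * M := by
      rw [one_div, inv_mul_eq_div, le_div_iff₀ h1]
      linarith
    nlinarith
  have hTn : T ^ n ≤ 2 * t ^ n := by
    have h1 : T ^ n ≤ (t * (1 + 1 / (2 * (n : ℝ) + 1))) ^ n :=
      pow_le_pow_left₀ (by linarith) hTu n
    rw [mul_pow] at h1
    have h2 : (1 + 1 / (2 * (n : ℝ) + 1)) ^ n ≤ 2 := by
      have h3 : 1 + 1 / (2 * (n : ℝ) + 1) ≤ Real.exp (1 / (2 * (n : ℝ) + 1)) := by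
        have := Real.add_one_le_exp (1 / (2 * (n : ℝ) + 1))
        linarith
      have h4 : (1 + 1 / (2 * (n : ℝ) + 1)) ^ n ≤ Real.exp (1 / (2 * (n : ℝ) + 1)) ^ n :=
        pow_le_pow_left₀ (by positivity) h3 n
      rw [← Real.exp_nat_mul] at h4
      have h5 : (n : ℝ) * (1 / (2 * (n : ℝ) + 1)) ≤ 1 / 2 := by
        rw [mul_one_div, div_le_iff₀ (by linarith)]
        linarith
      have h6 : Real.exp ((n : ℝ) * (1 / (2 * (n : ℝ) + 1))) ≤ Real.exp (1 / 2) :=
        Real.exp_le_exp.2 h5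
      have h7 : Real.exp (1 / 2) ≤ 2 := by
        have h8 : Real.exp (1 / 2) ^ 2 = Real.exp 1 := by
          rw [← Real.exp_nat_mul]
          norm_num
        have h9 := Real.exp_one_lt_d9
        have h10 := Real.exp_pos (1 / 2 : ℝ)
        nlinarith
      linarith
    have h3 : 0 ≤ t ^ n := by positivity
    nlinarith
  have hch : (chain T (n - 1) : ℝ) ≤ M := by
    have h1 := chain_le hT1 (n - 1)
    have e1 : n - 1 + 1 = n := by omega
    rw [e1] at h1
    refine h1.trans ?_
    have hT1' : 0 < T - 1 := by linarith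
    rw [div_le_iff₀ hT1']
    have h2 : 2 * t ^ n - 1 ≤ (t - 1) * (x - 1) := by nlinarith
    have h3 : (t - 1) * (x - 1) ≤ (T - 1) * M := by nlinarith
    nlinarith
  rw [hT] at hch
  refine gslope n r M m d hn (by exact_mod_cast hM1) (by exact_mod_cast hMr) (by exact_mod_cast hch) ?_
  have h1 : (M : ℝ) * d < r * m := by
    have h2 : (M : ℝ) * d < M * (t * m) := mul_lt_mul_of_pos_left hd hM0
    have h3 : (M : ℝ) * (t * m) ≤ x * (t * m) :=
      mul_le_mul_of_nonneg_right hMx (by positivity)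
    have h4 : (r : ℝ) * m = x * (t * m) := by rw [hrx]; ring
    linarith
  exact_mod_cast h1

/-- the general value and its bounds -/
theorem exists_value {n r : ℕ} (hn : 1 ≤ n) (m d : ℕ) :
    ∃ v : ℕ, (∀ h : ℤ, IsGeneralHilbertValue n r m d h → h = ((n + d).choose n : ℤ) - v) ∧
      (n + d).choose n ≤ v + r * (n + m - 1).choose n ∧ v ≤ (n + d).choose n ∧
      ∀ e : ℕ, e ≤ d → Generally (fun P : Fin r → ℙ ℂ (Fin (n + 1) → ℂ) =>
        TH3.IR.pforms e (fun _ => m) P = ⊥) → v + (n + e).choose n ≤ (n + d).choose n := by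
  obtain ⟨v, hv1, hv2, hv3, hv4, hv5⟩ := R873.SB.value hn (fun _ : Fin r => m) d
  simp only [Finset.sum_const, Finset.card_univ, Fintype.card_fin, smul_eq_mul] at hv2
  refine ⟨v, fun h hh => ?_, ?_, ?_, fun e he hE => ?_⟩
  · obtain ⟨P, hP, hPv⟩ := hv5 _ hh
    have hdim : Module.finrank ℂ (homogeneousSubmodule (Fin (n + 1)) ℂ d) =
      (d + n).choose n := TH3.IR.finrank_forms (by omega) d
    have h2 : R873.SB.pf d (fun _ : Fin r => m) P =
        (homogeneousSubmodule (Fin (n + 1)) ℂ d ⊓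
          Submodule.restrictScalars ℂ (symbolicPower m P) :
          Submodule ℂ (MvPolynomial (Fin (n + 1)) ℂ)) := rfl
    rw [h2] at hPv
    rw [← hP]
    unfold hilbert
    rw [hPv, hdim, Nat.add_comm n d]
  · rw [Nat.add_comm n d, Nat.add_comm n m]
    exact hv2
  · rw [Nat.add_comm n d]
    exact hv3
  · have := hv4 e he hE
    rw [Nat.add_comm n d, Nat.add_comm n e]
    exact this

/-- the slopes are at most `r ^ (1 / n)` -/
theorem slope_le (n r : ℕ) (hn : 1 ≤ n) (t : ℝ) (ht : 0 ≤ t)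
    (h : ∀ m d : ℕ, (d : ℝ) < t * m → IsGeneralHilbertValue n r m d ((n + d).choose n)) :
    t ^ n ≤ r := by
  rcases ht.eq_or_lt with rfl | ht0
  · rw [zero_pow (by omega)]
    exact Nat.cast_nonneg r
  have key : ∀ m : ℕ, 0 < m → t ^ n ≤ r * (((m : ℝ) + n) / m) ^ n := by
    intro m hm
    have hm0 : (0 : ℝ) < m := by exact_mod_cast hm
    have htm : 0 < t * m := by positivity
    obtain ⟨d, hd⟩ : ∃ d : ℕ, d = ⌈t * m⌉₊ - 1 := ⟨_, rfl⟩
    have hc : 0 < ⌈t * m⌉₊ := Nat.ceil_pos.2 htm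
    have hd1 : ((d : ℝ) + 1) = (⌈t * m⌉₊ : ℝ) := by
      rw [hd]
      have : ⌈t * m⌉₊ - 1 + 1 = ⌈t * m⌉₊ := by omega
      exact_mod_cast this
    have hd2 : (d : ℝ) < t * m := by
      have := Nat.ceil_lt_add_one htm.le
      linarith
    have hd3 : t * m ≤ (d : ℝ) + 1 := by rw [hd1]; exact Nat.le_ceil _
    obtain ⟨v, hv1, hv2, -, -⟩ := exists_value (r := r) hn m d
    have hv0 := hv1 _ (h m d hd2)
    have hv : v = 0 := by omega
    rw [hv, zero_add] at hv2
    have e1 := R873.SB.prod_lower n d (t * m) htm.le hd3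
    have e2 := R873.SB.fact_choose' n m hn
    have e3 : (n.factorial : ℝ) * ((d + n).choose n : ℝ) ≤
        r * ((n.factorial : ℝ) * ((m + n - 1).choose n : ℝ)) := by
      have h1 : ((d + n).choose n : ℝ) ≤ r * ((m + n - 1).choose n : ℝ) := by
        rw [Nat.add_comm d n, Nat.add_comm m n]
        exact_mod_cast hv2
      have h2 : (0 : ℝ) ≤ n.factorial := Nat.cast_nonneg _
      nlinarith
    rw [e2] at e3
    have e4 : (t * m) ^ n ≤ ∏ j ∈ Finset.range n, (t * m + (j : ℝ)) := by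
      have : (t * m) ^ n = ∏ _j ∈ Finset.range n, (t * m) := by
        rw [Finset.prod_const, Finset.card_range]
      rw [this]
      exact Finset.prod_le_prod (fun _ _ => htm.le) fun j _ => by
        have : (0 : ℝ) ≤ j := Nat.cast_nonneg j
        linarith
    have e5 : ∏ j ∈ Finset.range n, ((m : ℝ) + (j : ℝ)) ≤ ((m : ℝ) + n) ^ n := by
      have : ((m : ℝ) + n) ^ n = ∏ _j ∈ Finset.range n, ((m : ℝ) + n) := by
        rw [Finset.prod_const, Finset.card_range]
      rw [this]
      exact Finset.prod_le_prod (fun j _ => by positivity) fun j hj => by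
        have : (j : ℝ) ≤ n := by exact_mod_cast (Finset.mem_range.1 hj).le
        linarith
    have hr0 : (0 : ℝ) ≤ r := Nat.cast_nonneg r
    have e6 : (t * m) ^ n ≤ r * ((m : ℝ) + n) ^ n :=
      e4.trans (e1.trans (e3.trans (mul_le_mul_of_nonneg_left e5 hr0)))
    rw [div_pow, ← mul_div_assoc, le_div_iff₀ (by positivity), ← mul_pow]
    exact e6
  have hlim : Filter.Tendsto (fun m : ℕ => (r : ℝ) * (((m : ℝ) + n) / m) ^ n) Filter.atTop
      (nhds (r * 1 ^ n)) := by
    refine Filter.Tendsto.const_mul _ (Filter.Tendsto.pow ?_ n)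
    have h6 : Filter.Tendsto (fun m : ℕ => 1 + (n : ℝ) / (m : ℝ)) Filter.atTop (nhds (1 + 0)) :=
      tendsto_const_nhds.add (tendsto_const_div_atTop_nhds_zero_nat (n : ℝ))
    rw [add_zero] at h6
    refine h6.congr' ?_
    filter_upwards [Filter.eventually_gt_atTop 0] with m hm
    have hm' : (m : ℝ) ≠ 0 := by exact_mod_cast hm.ne'
    rw [add_div, div_self hm']
  rw [one_pow, mul_one] at hlim
  refine ge_of_tendsto hlim ?_
  filter_upwards [Filter.eventually_gt_atTop 0] with m hm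
  exact key m hm

/-- the value in all degrees, up to a constant factor -/
theorem value_ge (n r m d : ℕ) (hn : 2 ≤ n) (t : ℝ) (ht : 1 < t) (ht2 : t ≤ 2)
    (hr : 2 * t ^ (n + 1) ≤ (t - 1) * r) (h : ℤ) (hh : IsGeneralHilbertValue n r m d h) :
    h ≤ min ((n + d).choose n : ℤ) (r * ((n + m - 1).choose n : ℤ)) ∧
      min ((n.factorial : ℝ) * ((n + d).choose n : ℝ)) (∏ j ∈ Finset.range n, (t * m + j)) ≤
        n.factorial * h := by
  have ht0 : 0 < t := by linarith
  obtain ⟨v, hv1, hv2, hv3, hv4⟩ := exists_value (r := r) (by omega : 1 ≤ n) m d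
  have hhv := hv1 h hh
  have hf : (0 : ℝ) < n.factorial := by exact_mod_cast Nat.factorial_pos n
  refine ⟨le_min (by omega) ?_, ?_⟩
  · have : ((n + d).choose n : ℤ) ≤ v + r * ((n + m - 1).choose n : ℤ) := by exact_mod_cast hv2
    omega
  · rcases lt_or_ge (d : ℝ) (t * m) with hd | hd
    · have h1 := hv4 d le_rfl (gslope_real n r m d hn t ht ht2 hr hd).1
      have h2 : v = 0 := by omega
      have h3 : h = ((n + d).choose n : ℤ) := by rw [hhv, h2]; simp
      rw [h3]
      refine (min_le_left _ _).trans (le_of_eq ?_)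
      push_cast
      rfl
    · refine (min_le_right _ _).trans ?_
      rcases Nat.eq_zero_or_pos m with hm | hm
      · subst hm
        rw [Finset.prod_eq_zero (Finset.mem_range.2 (by omega : 0 < n)) (by simp)]
        have : (0 : ℝ) ≤ h := by
          have : 0 ≤ h := by omega
          exact_mod_cast this
        positivity
      · have hm0 : (0 : ℝ) < m := by exact_mod_cast hm
        have htm : 0 < t * m := by positivity
        obtain ⟨e, he⟩ : ∃ e : ℕ, e = ⌈t * m⌉₊ - 1 := ⟨_, rfl⟩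
        have hc : 0 < ⌈t * m⌉₊ := Nat.ceil_pos.2 htm
        have he1 : ((e : ℝ) + 1) = (⌈t * m⌉₊ : ℝ) := by
          rw [he]
          have : ⌈t * m⌉₊ - 1 + 1 = ⌈t * m⌉₊ := by omega
          exact_mod_cast this
        have he2 : (e : ℝ) < t * m := by
          have := Nat.ceil_lt_add_one htm.le
          linarith
        have he3 : t * m ≤ (e : ℝ) + 1 := by rw [he1]; exact Nat.le_ceil _
        have he4 : e ≤ d := by
          have : (e : ℝ) < d := lt_of_lt_of_le he2 hd
          exact_mod_cast this.le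
        have h1 := hv4 e he4 (gslope_real n r m e hn t ht ht2 hr he2).1
        refine (R873.SB.prod_lower n e (t * m) htm.le he3).trans ?_
        refine mul_le_mul_of_nonneg_left ?_ hf.le
        rw [Nat.add_comm e n]
        have h2 : ((n + e).choose n : ℤ) ≤ h := by omega
        exact_mod_cast h2

/-- Let `n ≥ 2`, and let the number `r` of general points of `ℙⁿ` be arbitrary (the case
`n + 2 ≤ r < 2 ^ n` is new).

1. Let `1 ≤ M ≤ r`, put `t = r / M`, and suppose that the term with the number `n - 1` of the sequence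
  `1`, `⌈t⌉`, `⌈t * ⌈t⌉⌉`, … is at most `M`. Then `H_{n,r,m}(d) = binom (n + d) n` for all `m` and all
  `d < t * m`.
2. The same is true for every real `t` with `1 < t ≤ 2` and `2 * t ^ (n + 1) ≤ (t - 1) * r`.
3. In the case 2, in all degrees `d`, the value `h = H_{n,r,m}(d)` is at most
  `min (binom (n + d) n) (r * binom (n + m - 1) n)`, and at least the minimum of `binom (n + d) n` and
  `(t * m) * (t * m + 1) * … * (t * m + n - 1) / n!`.
4. Conversely, if `H_{n,r,m}(d) = binom (n + d) n` for all `m` and all `d < t * m`, then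
  `t ^ n ≤ r`. -/
theorem result (n r : ℕ) (hn : 2 ≤ n) :
    (∀ M m d : ℕ, 1 ≤ M → M ≤ r → chain ((r : ℝ) / M) (n - 1) ≤ M → M * d < r * m →
      IsGeneralHilbertValue n r m d ((n + d).choose n) ∧
        (n + d).choose n ≤ r * (n + m - 1).choose n) ∧
    (∀ t : ℝ, 1 < t → t ≤ 2 → 2 * t ^ (n + 1) ≤ (t - 1) * r →
      (∀ m d : ℕ, (d : ℝ) < t * m →
        IsGeneralHilbertValue n r m d ((n + d).choose n) ∧
          (n + d).choose n ≤ r * (n + m - 1).choose n) ∧
      ∀ (m d : ℕ) (h : ℤ), IsGeneralHilbertValue n r m d h →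
        h ≤ min ((n + d).choose n : ℤ) (r * ((n + m - 1).choose n : ℤ)) ∧
        min ((n.factorial : ℝ) * ((n + d).choose n : ℝ)) (∏ j ∈ Finset.range n, (t * m + j)) ≤
          n.factorial * h) ∧
    (∀ t : ℝ, 0 ≤ t →
      (∀ m d : ℕ, (d : ℝ) < t * m → IsGeneralHilbertValue n r m d ((n + d).choose n)) →
      t ^ n ≤ r) :=
  ⟨fun M m d hM hMr hch hd => (gslope n r M m d hn hM hMr hch hd).2,
    fun t ht ht2 hr => ⟨fun m d hd => (gslope_real n r m d hn t ht ht2 hr hd).2,
      fun m d h hh => value_ge n r m d hn t ht ht2 hr h hh⟩,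
    fun t ht h => slope_le n r (by omega) t ht h⟩

end Pool.Agent.Results.MP_b56c98_ag.FewerThanPowerOfTwo
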