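import Mathlib
import Pool.Agent.K4H38.FR.Sec

/-!
# General fat points of multiplicity `m` in degree `2 m - 2`

For `r` general points of multiplicity `m ≥ 3` in `ℙⁿ` the degrees `d ≥ 2 m - 1` are those in which
the secant lines of the points impose no obstruction. We determine the Hilbert function in the
critical degree `d = 2 m - 2` for all large `n`: with `N = binom (n + m - 1) n` and
`D = binom (n + 2 m - 2) n`,

* `H_{n,r,m}(2 m - 2) = r * N - binom r 2` if `r ≤ N` and this number is at most
  `D - ε * n ^ (2 m - 2)`;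
* `H_{n,r,m}(2 m - 2) = D` if `r * N - binom r 2 ≥ D + ε * n ^ (2 m - 2)` or `r ≥ N`.

So there is exactly one obstruction for each pair of points. For `m = 3` this is the case of quartics
with triple points; in the degrees `d ≥ 5` the value for `m = 3` is known for all but at most
`binom (n + 1) 2 - 1` consecutive numbers of points (`BoundedWindow`).

The second part is about arbitrary multiplicities `m i ≤ M` in degree `d`: if `d ≥ 2 M - 2`, then
the value is `∑ binom (n + m i - 1) n - binom s 2`, where `s` is the number of the points with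
`2 m i = d + 2`, as soon as the expected values in the degrees up to `d` are at least `ε * n ^ k`; and
for every `d` further general points of multiplicity at most `d + 2 - M` never change the difference
of the Hilbert function and the value expected for it.

By apolarity, one considers the ideal generated by powers of general linear forms. The forms `c` with
`h * c` in this ideal, where `h` is a further power of a general linear form, grow strictly as soon as
they are not the obvious ones: otherwise an exchange argument shows that the colon space contains a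
nonzero space which does not depend on the points, and then a degeneration under the linear group
shows that the ideal contains all forms. Growth in many steps contradicts the known bound
`O (n ^ (d - 1))` for the error (`LeadingOrder`).
-/

set_option autoImplicit false

namespace Pool.Agent.Results.MP_b56c98_ag.SecantDegree

open MvPolynomial
open scoped LinearAlgebra.Projectivization
open Pool.Agent.H350R3.MG

/-- The ideal of the polynomials vanishing to order at least `m i` at the point `P i`, for all
`i`. -/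
noncomputable def fatIdeal {n r : ℕ} (m : Fin r → ℕ) (P : Fin r → ℙ ℂ (Fin (n + 1) → ℂ)) :
    Ideal (MvPolynomial (Fin (n + 1)) ℂ) :=
  ⨅ i, primeIdeal (P i) ^ m i

/-- The Hilbert function `dim R_d - dim J_d` of `R / J`. -/
noncomputable def hilbert {n : ℕ} (J : Ideal (MvPolynomial (Fin (n + 1)) ℂ)) (d : ℕ) : ℤ :=
  (Module.finrank ℂ (homogeneousSubmodule (Fin (n + 1)) ℂ d) : ℤ) -
    Module.finrank ℂ (homogeneousSubmodule (Fin (n + 1)) ℂ d ⊓ Submodule.restrictScalars ℂ J :
      Submodule ℂ (MvPolynomial (Fin (n + 1)) ℂ))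

/-- `h` is the value in degree `d` of the Hilbert function of `R / J` for the ideal `J` of general
points with multiplicities `m i`: the value is `h` for all the tuples of points in a nonempty Zariski
open set. -/
def IsGeneralValue (n : ℕ) {r : ℕ} (m : Fin r → ℕ) (d : ℕ) (h : ℤ) : Prop :=
  Generally (fun P : Fin r → ℙ ℂ (Fin (n + 1) → ℂ) => hilbert (fatIdeal m P) d = h)

/-- `h` is the value `H_{n,r,m}(d)`. -/
def IsGeneralHilbertValue (n r m d : ℕ) (h : ℤ) : Prop :=
  IsGeneralValue n (fun _ : Fin r => m) d h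

/-- The number of the coefficients of a form of degree `d` in `n + 1` variables. -/
def forms (n d : ℕ) : ℤ := ((n + d).choose n : ℕ)

/-- The number of the conditions of a point of multiplicity `m` in `ℙⁿ`. -/
def conditions (n m : ℕ) : ℤ := ((n + m - 1).choose n : ℕ)

/-- The coefficient of `t ^ k` in `(1 - t) ^ (-(n + 1)) * ∏ i, (1 - t ^ (d + 1 - m i))`. The
expected value of the Hilbert function in degree `d` is `forms n d - co n m d d`, if all the
coefficients up to degree `d` are positive. -/
noncomputable def co (n : ℕ) {r : ℕ} (m : Fin r → ℕ) (d k : ℕ) : ℤ :=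
  PowerSeries.coeff k ((PowerSeries.mk fun _ => (1 : ℤ)) ^ (n + 1) *
    ∏ i : Fin r, (1 - PowerSeries.X ^ (d + 1 - m i)))

section aux

variable {n r : ℕ}

lemma co_eq (m : Fin r → ℕ) (d k : ℕ) :
    H350MG.E (H350MG.gj (Fin (n + 1))) (List.ofFn fun i => d + 1 - m i) k = co n m d k :=
  H350MG.E_ofFn_series (n + 1) (by omega) (fun i => d + 1 - m i) k

/-- the generic codimension of the ideal of the powers of linear forms -/
noncomputable def q (n : ℕ) (m : Fin r → ℕ) (d : ℕ) : ℕ :=
  K4H38FR.qv (K4H38FR.powF ℂ (Fin (n + 1))) d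
    ((List.ofFn fun i => d + 1 - m i : List ℕ) : Multiset ℕ)

lemma general (n : ℕ) (m : Fin r → ℕ) (d : ℕ) :
    IsGeneralValue n m d (forms n d - q n m d) := by
  obtain ⟨U, h1, h2, h3⟩ := K4H38FP.generally_dim (n := n) (r := r) m d
  refine ⟨U, h1, h2, fun P hP => ?_⟩
  have h4 := h3 P hP
  rw [K4H38FR.hv_qv, Multiset.map_map] at h4
  have h5 : (Finset.univ : Finset (Fin r)).val.map ((fun m => d + 1 - m) ∘ m) =
      ((List.ofFn fun i => d + 1 - m i : List ℕ) : Multiset ℕ) := by
    rw [Fin.univ_def, List.ofFn_eq_map]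
    rfl
  rw [h5] at h4
  unfold hilbert fatIdeal forms q
  beta_reduce
  rw [h4, H350MG.finrank_Rj, Fintype.card_fin, show n + 1 + d - 1 = n + d by omega,
    ← Nat.choose_symm_add]

lemma general_of {m : Fin r → ℕ} {d : ℕ} {h : ℤ} (hh : forms n d - q n m d = h) :
    IsGeneralValue n m d h := hh ▸ general n m d

lemma q_const (n r m d : ℕ) : q n (fun _ : Fin r => m) d =
    K4H38FR.qv (K4H38FR.powF ℂ (Fin (n + 1))) d (Multiset.replicate r (d + 1 - m)) := by
  unfold q
  congr 1
  rw [List.ofFn_const]
  rfl

/-- the explicit expected value -/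
lemma explicit (hn : 1 ≤ n) (m : Fin r → ℕ) (d M : ℕ) (hMd : M ≤ d) (hM : ∀ i, m i ≤ M)
    (h2 : 2 * M ≤ d + 2) :
    H350MG.E (H350MG.gj (Fin (n + 1))) (List.ofFn fun i => d + 1 - m i) d =
      forms n d - (∑ i, conditions n (m i) -
        (((Finset.univ.filter fun i => 2 * m i = d + 2).card.choose 2 : ℕ) : ℤ)) := by
  rw [K4H38FR.E_two (σ := Fin (n + 1)) (d0 := d + 1 - M) (by omega) (by omega) _ (fun a ha => by
    obtain ⟨i, rfl⟩ := (List.mem_ofFn' _ _).1 ha
    have := hM i
    change d + 1 - M ≤ d + 1 - m i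
    omega), Pool.Agent.TH130.FP.gj_fin, List.map_ofFn, List.sum_ofFn]
  have e1 : ∑ i, ((fun a => if a ≤ d then H350MG.gj (Fin (n + 1)) (d - a) else 0) ∘
      fun i => d + 1 - m i) i = ∑ i, conditions n (m i) := by
    refine Finset.sum_congr rfl fun i _ => ?_
    have := hM i
    change (if d + 1 - m i ≤ d then H350MG.gj (Fin (n + 1)) (d - (d + 1 - m i)) else 0) = _
    unfold conditions
    split_ifs with h
    · rw [Pool.Agent.TH130.FP.gj_fin, show n + (d - (d + 1 - m i)) = n + m i - 1 by omega]
    · rw [Nat.choose_eq_zero_of_lt (by omega)]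
      rfl
  have e2 : (List.ofFn fun i => d + 1 - m i).countP (fun a => 2 * a = d) =
      (Finset.univ.filter fun i => 2 * m i = d + 2).card := by
    have h3 : ((List.ofFn fun i => d + 1 - m i : List ℕ) : Multiset ℕ) =
        (Finset.univ : Finset (Fin r)).val.map fun i => d + 1 - m i := by
      rw [Fin.univ_def, List.ofFn_eq_map]
      rfl
    rw [← Multiset.coe_countP, h3, Multiset.countP_map, ← Finset.filter_val]
    change ((Finset.univ : Finset (Fin r)).filter fun i => 2 * (d + 1 - m i) = d).card = _
    congr 1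
    refine Finset.filter_congr fun i _ => ?_
    have := hM i
    omega
  rw [e1, e2]
  unfold forms
  ring

lemma perm_split {s t : ℕ} (e : Fin (s + t) → ℕ) :
    (List.ofFn e).Perm ((List.ofFn fun i : Fin t => e (Fin.natAdd s i)) ++
      (List.ofFn fun i : Fin s => e (Fin.castAdd t i))) := by
  rw [List.ofFn_add]
  exact List.perm_append_comm

lemma qv_rep_anti (𝓕 : K4H38FR.Fmy ℂ (Fin (n + 1))) (d e : ℕ) {a b : ℕ} (hab : a ≤ b)
    (h : K4H38FR.qv 𝓕 d (Multiset.replicate a e) = 0) :
    K4H38FR.qv 𝓕 d (Multiset.replicate b e) = 0 := by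
  induction b, hab using Nat.le_induction with
  | base => exact h
  | succ b _ ih =>
    have h1 := K4H38FR.qv_anti 𝓕 d (Multiset.replicate b e) e
    rw [← Multiset.replicate_succ] at h1
    omega

end aux

/-- **Main result.** Part 1: the value `H_{n,r,m}(2 m - 2)` for all `m ≥ 3`, all large `n` and all
`r` outside of a small window. Part 2: the general value for arbitrary multiplicities `m i ≤ M` in
degree `d ≥ 2 M - 2`, and invariance of the deviation from the expected value in any degree `d ≥ M`
when further general points of multiplicity at most `d + 2 - M` are added. -/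
theorem result :
    (∀ (m : ℕ) (ε : ℝ), 3 ≤ m → 0 < ε → ∃ n₀ : ℕ, ∀ n r : ℕ, n₀ ≤ n →
      ((r : ℤ) ≤ conditions n m →
        ((r * conditions n m - r.choose 2 : ℤ) : ℝ) ≤
          (forms n (2 * m - 2) : ℝ) - ε * (n : ℝ) ^ (2 * m - 2) →
        IsGeneralHilbertValue n r m (2 * m - 2) (r * conditions n m - r.choose 2)) ∧
      ((forms n (2 * m - 2) : ℝ) + ε * (n : ℝ) ^ (2 * m - 2) ≤
          ((r * conditions n m - r.choose 2 : ℤ) : ℝ) →
        IsGeneralHilbertValue n r m (2 * m - 2) (forms n (2 * m - 2))) ∧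
      (conditions n m ≤ r → IsGeneralHilbertValue n r m (2 * m - 2) (forms n (2 * m - 2)))) ∧
    (∀ (d : ℕ) (ε : ℝ), 0 < ε → ∃ n₀ : ℕ, ∀ n : ℕ, n₀ ≤ n →
      ∀ (s t : ℕ) (m : Fin (s + t) → ℕ) (M : ℕ), M ≤ d → (∀ i, m i ≤ M) →
        (∀ k ≤ d, ε * (n : ℝ) ^ k ≤ (co n m d k : ℝ)) →
        (2 * M ≤ d + 2 → IsGeneralValue n m d (∑ i, conditions n (m i) -
          ((Finset.univ.filter fun i => 2 * m i = d + 2).card.choose 2 : ℕ))) ∧
        ((∀ i : Fin t, m (Fin.natAdd s i) + M ≤ d + 2) → ∃ h h' : ℤ,
          IsGeneralValue n m d h ∧ IsGeneralValue n (fun i : Fin s => m (Fin.castAdd t i)) d h' ∧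
          h - (forms n d - co n m d d) =
            h' - (forms n d - co n (fun i : Fin s => m (Fin.castAdd t i)) d d))) := by
  constructor
  · intro m ε hm hε
    obtain ⟨e, rfl⟩ : ∃ e, m = e + 1 := ⟨m - 1, by omega⟩
    have he : 2 ≤ e := by omega
    have hd : 2 * (e + 1) - 2 = 2 * e := by omega
    have hex : 2 * e + 1 - (e + 1) = e := by omega
    rw [hd]
    obtain ⟨ε₁, hε₁, n1, hn1, hmar⟩ := K4H38FR.marg e he ε hε
    obtain ⟨C, n2, hn2, hap⟩ := K4H38FR.apr_pow (2 * e) ε₁ hε₁
    obtain ⟨n3, hn3, hbig⟩ := K4H38FR.exists_big ε₁ C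
    refine ⟨n1 + n2 + n3, fun n r hn => ?_⟩
    obtain ⟨h1, h2⟩ := hmar n (by omega)
    obtain ⟨ha1, ha2⟩ := hap ℂ n (by omega) (2 * e) le_rfl
    have hcond : conditions n (e + 1) = ((n + e).choose n : ℕ) := rfl
    have hforms : forms n (2 * e) = ((n + 2 * e).choose n : ℕ) := rfl
    have hcard : (Fintype.card (Fin (n + 1)) : ℝ) = (n : ℝ) + 1 := by
      rw [Fintype.card_fin]; push_cast; ring
    have hrep : ∀ r : ℕ, ((List.replicate r e : List ℕ) : Multiset ℕ) = Multiset.replicate r e :=
      fun r => rfl
    have hN : K4H38FR.qv (K4H38FR.powF ℂ (Fin (n + 1))) (2 * e)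
        (Multiset.replicate ((n + e).choose n) e) = 0 := by
      rw [← hrep]
      exact ha2 _ (fun a ha => by rw [List.eq_of_mem_replicate ha]; omega) ⟨2 * e, le_rfl, h2⟩
    refine ⟨fun hr hle => ?_, fun hle => ?_, fun hr => ?_⟩
    · refine general_of ?_
      rw [q_const, hex, ← hrep]
      rw [hcond] at hr hle
      rw [hforms] at hle
      have h3 := (h1 r).1 (by exact_mod_cast hr) (by push_cast at hle; exact hle)
      have h4 := K4H38FR.dv_exact (K4H38FR.powF ℂ (Fin (n + 1))) hε₁ ha1
        (by rw [hcard]; exact_mod_cast hbig (n + 1) (by omega)) (d0 := e) (by omega) le_rfl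
        (l := List.replicate r e) (fun a ha => (List.eq_of_mem_replicate ha).ge) (by
          intro k hk
          rw [hcard]
          exact h3 k hk)
      unfold K4H38FR.dv at h4
      rw [K4H38FR.E_rep (by omega) le_rfl, if_pos (by omega), if_pos rfl,
        show 2 * e - e = e by omega] at h4
      rw [hcond, hforms]
      linarith
    · refine general_of ?_
      rw [q_const, hex, ← hrep]
      rw [hcond, hforms] at hle
      have h3 := (h1 r).2 (by push_cast at hle; exact hle)
      rw [ha2 _ (fun a ha => by rw [List.eq_of_mem_replicate ha]; omega) ⟨2 * e, le_rfl, h3⟩]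
      simp
    · refine general_of ?_
      rw [q_const, hex]
      rw [hcond] at hr
      rw [qv_rep_anti _ (2 * e) e (by exact_mod_cast hr) hN]
      simp
  · intro d ε hε
    have h2d : (0 : ℝ) < 2 ^ d := by positivity
    have hε' : 0 < ε / 2 ^ d := by positivity
    obtain ⟨C, n2, hn2, hap⟩ := K4H38FR.apr_pow d (ε / 2 ^ d) hε'
    obtain ⟨n3, hn3, hbig⟩ := K4H38FR.exists_big (ε / 2 ^ d) C
    refine ⟨n2 + n3, fun n hn s t m M hMd hM hco => ?_⟩
    have hn1 : 1 ≤ n := by omega
    have hnR : (1 : ℝ) ≤ n := by exact_mod_cast hn1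
    obtain ⟨ha1, -⟩ := hap ℂ n (by omega) d le_rfl
    have hcard : (Fintype.card (Fin (n + 1)) : ℝ) = (n : ℝ) + 1 := by
      rw [Fintype.card_fin]; push_cast; ring
    have hbigk : K4H38FR.Big (Fintype.card (Fin (n + 1)) : ℝ) (ε / 2 ^ d) C := by
      rw [hcard]; exact_mod_cast hbig (n + 1) (by omega)
    have hmar : ∀ k ≤ d, ε / 2 ^ d * (Fintype.card (Fin (n + 1)) : ℝ) ^ k ≤
        (H350MG.E (H350MG.gj (Fin (n + 1))) (List.ofFn fun i => d + 1 - m i) k : ℝ) := by
      intro k hk
      rw [hcard, co_eq]
      refine le_trans ?_ (hco k hk)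
      calc ε / 2 ^ d * ((n : ℝ) + 1) ^ k ≤ ε / 2 ^ d * (2 * (n : ℝ)) ^ k :=
            mul_le_mul_of_nonneg_left (pow_le_pow_left₀ (by linarith) (by linarith) k) hε'.le
        _ = ε / 2 ^ d * (2 ^ k * (n : ℝ) ^ k) := by rw [mul_pow]
        _ ≤ ε / 2 ^ d * (2 ^ d * (n : ℝ) ^ k) := by
            refine mul_le_mul_of_nonneg_left (mul_le_mul_of_nonneg_right ?_ (by positivity)) hε'.le
            exact pow_le_pow_right₀ (by norm_num) hk
        _ = ε * (n : ℝ) ^ k := by field_simp
    refine ⟨fun h2 => ?_, fun ht => ?_⟩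
    · refine general_of ?_
      have h4 := K4H38FR.dv_exact (K4H38FR.powF ℂ (Fin (n + 1))) hε' ha1 hbigk (d0 := d + 1 - M)
        (by omega) (by omega) (l := List.ofFn fun i => d + 1 - m i) (fun a ha => by
          obtain ⟨i, rfl⟩ := (List.mem_ofFn' _ _).1 ha
          have := hM i
          change d + 1 - M ≤ d + 1 - m i
          omega) hmar
      unfold K4H38FR.dv at h4
      rw [explicit hn1 m d M hMd hM h2] at h4
      unfold q
      linarith
    · refine ⟨_, _, general n m d, general n _ d, ?_⟩
      have hperm := perm_split fun i => d + 1 - m i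
      have hE : ∀ j, H350MG.E (H350MG.gj (Fin (n + 1))) (List.ofFn fun i => d + 1 - m i) j =
          H350MG.E (H350MG.gj (Fin (n + 1)))
            ((List.ofFn fun i : Fin t => d + 1 - m (Fin.natAdd s i)) ++
              List.ofFn fun i : Fin s => d + 1 - m (Fin.castAdd t i)) j :=
        fun j => H350MG.E_perm _ hperm j
      have h1 := K4H38FR.dv_append (K4H38FR.powF ℂ (Fin (n + 1))) hε' ha1 hbigk (d0 := d + 1 - M)
        (by omega) (l := List.ofFn fun i : Fin s => d + 1 - m (Fin.castAdd t i)) (fun a ha => by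
          obtain ⟨i, rfl⟩ := (List.mem_ofFn' _ _).1 ha
          have := hM (Fin.castAdd t i)
          change d + 1 - M ≤ d + 1 - m (Fin.castAdd t i)
          omega) (List.ofFn fun i : Fin t => d + 1 - m (Fin.natAdd s i)) (fun a ha => by
          obtain ⟨i, rfl⟩ := (List.mem_ofFn' _ _).1 ha
          have h3 := hM (Fin.natAdd s i)
          have h4 := ht i
          change d + 1 - M ≤ d + 1 - m (Fin.natAdd s i) ∧
            d ≤ d + 1 - m (Fin.natAdd s i) + (d + 1 - M)
          omega) (fun k hk => by
          rw [← hE]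
          exact hmar k hk)
      have h2 : K4H38FR.dv (K4H38FR.powF ℂ (Fin (n + 1))) d (List.ofFn fun i => d + 1 - m i) =
          K4H38FR.dv (K4H38FR.powF ℂ (Fin (n + 1))) d
            (List.ofFn fun i : Fin s => d + 1 - m (Fin.castAdd t i)) := by
        rw [← h1]
        unfold K4H38FR.dv
        rw [hE, Multiset.coe_eq_coe.2 hperm]
      unfold K4H38FR.dv at h2
      rw [co_eq, co_eq] at h2
      unfold q
      linarith

end Pool.Agent.Results.MP_b56c98_ag.SecantDegree
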